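import Mathlib

/-!
# The determinant of a matrix of Macaulay's type
-/

set_option autoImplicit false

namespace Pool.Agent.Helper81.KW

open MvPolynomial

/-- The monomials of degree `19` in three variables. -/
def S19 : Finset (Fin 3 →₀ ℕ) := (Finset.univ : Finset (Fin 3)).finsuppAntidiag 19

theorem mem_S19 (m : Fin 3 →₀ ℕ) : m ∈ S19 ↔ m 0 + m 1 + m 2 = 19 := by
  unfold S19
  rw [Finset.mem_finsuppAntidiag]
  simp [Fin.sum_univ_three]

theorem exists_seven {m : Fin 3 →₀ ℕ} (hm : m ∈ S19) : ∃ k, 7 ≤ m k := by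
  rw [mem_S19] at hm
  by_contra h
  push Not at h
  have h0 := h 0
  have h1 := h 1
  have h2 := h 2
  omega

theorem deg_S19 {m : Fin 3 →₀ ℕ} : m ∈ S19 ↔ m.degree = 19 := by
  rw [mem_S19, Finsupp.degree_eq_sum, Fin.sum_univ_three]

theorem eq_sum {A : Type*} [CommRing A] {q : MvPolynomial (Fin 3) A} (hq : q.IsHomogeneous 19) :
    q = ∑ m : S19, monomial m.1 (coeff m.1 q) := by
  classical
  ext x
  rw [coeff_sum]
  simp only [coeff_monomial]
  by_cases hx : x ∈ S19
  · rw [Finset.sum_eq_single (⟨x, hx⟩ : S19)]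
    · simp
    · intro b _ hb
      rw [if_neg]
      intro h
      exact hb (Subtype.ext h)
    · intro h
      exact absurd (Finset.mem_univ _) h
  · rw [Finset.sum_eq_zero]
    · by_contra hne
      exact hx (deg_S19.mpr (by
        have := hq hne
        rw [← this, Finsupp.degree_eq_weight_one]
        rfl))
    · intro b _
      rw [if_neg]
      rintro rfl
      exact hx b.2

/-- If forms `h k` of degree seven, combinations of the `g i`, become `2 * X k ^ 7` for one system of coefficients, then
there is a polynomial `d` in the coefficients, not zero for that system, such that whenever `d` is invertible, the powers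
`X k ^ 19` lie in the ideal of the `g i`. -/
theorem mac {A : Type*} [CommRing A] {ι : Type*} (g : ι → MvPolynomial (Fin 3) A)
    (h : Fin 3 → MvPolynomial (Fin 3) A) (hI : ∀ k, h k ∈ Ideal.span (Set.range g))
    (hh : ∀ k, (h k).IsHomogeneous 7) (e : A →+* ℤ) (he : ∀ k, MvPolynomial.map e (h k) = 2 * X k ^ 7) :
    ∃ d : A, e d ≠ 0 ∧ ∀ (R : Type) [CommRing R] (φ : A →+* R), IsUnit (φ d) → ∀ k : Fin 3,
      (X k : MvPolynomial (Fin 3) R) ^ 19 ∈ Ideal.span (Set.range fun i => MvPolynomial.map φ (g i)) := by
  classical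
  choose κ hκ using fun m : S19 => exists_seven m.2
  set p : S19 → MvPolynomial (Fin 3) A := fun m =>
    monomial (m.1 - Finsupp.single (κ m) 7) (1 : A) * h (κ m) with hp
  have hle : ∀ m : S19, Finsupp.single (κ m) 7 ≤ m.1 := by
    intro m
    rw [Finsupp.single_le_iff]
    exact hκ m
  have hph : ∀ m, (p m).IsHomogeneous 19 := by
    intro m
    have h1 : (m.1 - Finsupp.single (κ m) 7).degree = 12 := by
      have h2 : (m.1 - Finsupp.single (κ m) 7) + Finsupp.single (κ m) 7 = m.1 := tsub_add_cancel_of_le (hle m)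
      have h3 := congrArg Finsupp.degree h2
      rw [map_add, Finsupp.degree_single, deg_S19.mp m.2] at h3
      omega
    exact (isHomogeneous_monomial (1 : A) h1).mul (hh (κ m))
  set Mt : Matrix S19 S19 A := fun m m' => coeff m'.1 (p m) with hMt
  refine ⟨Mt.det, ?_, ?_⟩
  · rw [RingHom.map_det]
    have h1 : e.mapMatrix Mt = Matrix.diagonal fun _ => (2 : ℤ) := by
      ext m m'
      rw [RingHom.mapMatrix_apply, Matrix.map_apply]
      show e (coeff m'.1 (p m)) = _
      rw [← coeff_map]
      have h2 : MvPolynomial.map e (p m) = monomial m.1 2 := by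
        rw [hp]
        simp only [map_mul, map_monomial, map_one, he]
        have h3 : (2 * X (κ m) ^ 7 : MvPolynomial (Fin 3) ℤ) = monomial (Finsupp.single (κ m) 7) 2 := by
          rw [X_pow_eq_monomial, ← map_ofNat (C : ℤ →+* MvPolynomial (Fin 3) ℤ) 2, C_mul_monomial, mul_one]
        rw [h3, monomial_mul, one_mul, tsub_add_cancel_of_le (hle m)]
      rw [h2, coeff_monomial, Matrix.diagonal_apply]
      by_cases hm : m = m'
      · subst hm; simp
      · rw [if_neg hm, if_neg fun hx => hm (Subtype.ext hx)]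
    rw [h1, Matrix.det_diagonal]
    exact Finset.prod_ne_zero_iff.mpr fun _ _ => two_ne_zero
  · intro R _ φ hu k
    set N : Matrix S19 S19 R := φ.mapMatrix Mt with hN
    have hdet : IsUnit N.det := by
      rw [hN, ← RingHom.map_det]
      exact hu
    have hinv : N⁻¹ * N = 1 := Matrix.nonsing_inv_mul N hdet
    have hmem : ∀ m : S19, MvPolynomial.map φ (p m) ∈ Ideal.span (Set.range fun i => MvPolynomial.map φ (g i)) := by
      intro m
      rw [hp]
      simp only [map_mul]
      apply Ideal.mul_mem_left
      have h1 := Ideal.mem_map_of_mem (MvPolynomial.map φ) (hI (κ m))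
      rw [Ideal.map_span, ← Set.range_comp] at h1
      exact h1
    have hsum : ∀ m : S19, MvPolynomial.map φ (p m) = ∑ m' : S19, monomial m'.1 (N m m') := by
      intro m
      rw [eq_sum ((hph m).map φ)]
      refine Finset.sum_congr rfl fun m' _ => ?_
      rw [coeff_map]
      rfl
    have hk : Finsupp.single k 19 ∈ S19 := by
      rw [deg_S19, Finsupp.degree_single]
    have hX : (X k : MvPolynomial (Fin 3) R) ^ 19 =
        ∑ m : S19, C (N⁻¹ ⟨_, hk⟩ m) * MvPolynomial.map φ (p m) := by
      simp only [hsum, Finset.mul_sum, C_mul_monomial]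
      rw [Finset.sum_comm]
      have h1 : ∀ m' : S19, ∑ m : S19, monomial m'.1 (N⁻¹ ⟨_, hk⟩ m * N m m') =
          monomial m'.1 ((1 : Matrix S19 S19 R) ⟨_, hk⟩ m') := by
        intro m'
        rw [← map_sum, ← Matrix.mul_apply, hinv]
      simp only [h1, Matrix.one_apply]
      rw [Finset.sum_eq_single (⟨_, hk⟩ : S19)]
      · rw [if_pos rfl, X_pow_eq_monomial]
      · intro b _ hb
        rw [if_neg (Ne.symm hb), map_zero]
      · intro hx
        exact absurd (Finset.mem_univ _) hx
    rw [hX]
    exact Ideal.sum_mem _ fun m _ => Ideal.mul_mem_left _ _ (hmem m)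

end Pool.Agent.Helper81.KW
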