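import Pool.Agent.Helper67.KW.MN1
import Pool.Agent.Helper59.KW.TA2
import Pool.Agent.Helper71.KW.LA4

/-!
# Piece UL: exactness of the reduced C*-algebra gives uniform local amenability (MP_715b63_an)
-/

open CategoryTheory Topology
open scoped ENNReal

namespace Pool.Agent.KW

universe u v

namespace UL

section Alg

variable {X : Type u} [Groupoid.{u} X]

open Classical in
/-- `regMat` for real functions -/
noncomputable def regR (f : Arr X → ℝ) (s t : Arr X) : ℝ :=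
  if h : t.src = s.src then
    f ⟨t.tgt, s.tgt, Groupoid.inv t.hom ≫ eqToHom h ≫ s.hom⟩ else 0

theorem regMat_ofReal (f : Arr X → ℝ) (s t : Arr X) :
    regMat (fun a => (f a : ℂ)) s t = (regR f s t : ℂ) := by
  unfold regMat regR
  split_ifs <;> simp

theorem regR_arr (f : Arr X → ℝ) {x : X} (g h : Fibre x) :
    regR f (arr g) (arr h) = f (quot g h) := by
  unfold regR
  have h1 : (arr h).src = (arr g).src := rfl
  rw [dif_pos h1]
  congr 1
  simp [arr, quot]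

theorem src_eq_of_regR_ne {f : Arr X → ℝ} {s t : Arr X} (h : regR f s t ≠ 0) : t.src = s.src := by
  by_contra hc
  exact h (dif_neg hc)

/-- arrows with the same source come from a fibre -/
theorem exists_fibre {s t : Arr X} (h : t.src = s.src) :
    ∃ (x : X) (g k : Fibre x), s = arr g ∧ t = arr k := by
  obtain ⟨x, y, s⟩ := s
  obtain ⟨x', z, t⟩ := t
  obtain rfl : x' = x := h
  exact ⟨x', ⟨y, s⟩, ⟨z, t⟩, rfl, rfl⟩

theorem arr_injective {x : X} : Function.Injective (arr : Fibre x → Arr X) := by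
  rintro ⟨y, g⟩ ⟨z, k⟩ h
  simp only [arr, Arr.mk.injEq, true_and] at h
  obtain ⟨rfl, h⟩ := h
  rw [heq_iff_eq] at h
  rw [h]

theorem quot_inj_right {x : X} {g k k' : Fibre x} (h : quot g k = quot g k') : k = k' := by
  obtain ⟨y, g⟩ := g
  obtain ⟨z, k⟩ := k
  obtain ⟨z', k'⟩ := k'
  simp only [quot, Arr.mk.injEq] at h
  obtain ⟨rfl, -, h⟩ := h
  rw [heq_iff_eq, cancel_mono] at h
  have : k = k' := by
    have := congrArg Groupoid.inv h
    simpa [Groupoid.inv_eq_inv] using this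
  rw [this]

theorem quot_inj_left {x : X} {g g' k : Fibre x} (h : quot g k = quot g' k) : g = g' := by
  obtain ⟨y, g⟩ := g
  obtain ⟨y', g'⟩ := g'
  obtain ⟨z, k⟩ := k
  simp only [quot, Arr.mk.injEq, true_and] at h
  obtain ⟨rfl, h⟩ := h
  rw [heq_iff_eq, cancel_epi] at h
  rw [h]

theorem invArr_quot {x : X} (g k : Fibre x) : invArr (quot g k) = quot k g := by
  simp [invArr, quot, Groupoid.inv_eq_inv]

theorem invArr_invArr (g : Arr X) : invArr (invArr g) = g := by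
  obtain ⟨x, y, g⟩ := g
  simp [invArr, Groupoid.inv_eq_inv]

theorem quot_self {x : X} (g : Fibre x) : quot g g = unitArr g.1 := by
  simp [quot, unitArr]

theorem regR_inv (f : Arr X → ℝ) (s t : Arr X) :
    regR (fun a => f (invArr a)) s t = regR f t s := by
  by_cases h : t.src = s.src
  · obtain ⟨x, g, k, rfl, rfl⟩ := exists_fibre h
    rw [regR_arr, regR_arr, invArr_quot]
  · unfold regR
    rw [dif_neg h, dif_neg (fun h' => h h'.symm)]

theorem eq_of_quot_unit {x : X} {g k : Fibre x} {z : X} (h : quot g k = unitArr z) : g = k := by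
  have h1 : quot g k = quot k k := by
    rw [quot_self, h]
    have h2 : (quot g k).src = (unitArr z).src := by rw [h]
    have h3 : k.1 = z := h2
    rw [h3]
  exact quot_inj_left h1

open Classical in
theorem regR_unit {u : Arr X → ℝ} (hu : ∀ g, u g ≠ 0 → ∃ x, g = unitArr x) (s t : Arr X) :
    regR u s t = if s = t then u (unitArr s.tgt) else 0 := by
  split_ifs with h
  · subst h
    have h1 := regR_arr u (⟨s.tgt, s.hom⟩ : Fibre s.src) ⟨s.tgt, s.hom⟩
    rw [quot_self] at h1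
    exact h1
  · by_contra hne
    obtain ⟨x, g, k, rfl, rfl⟩ := exists_fibre (src_eq_of_regR_ne hne)
    rw [regR_arr] at hne
    obtain ⟨z, hz⟩ := hu _ hne
    exact h (by rw [eq_of_quot_unit hz])

end Alg

section Top

variable {X : Type u} [Groupoid.{u} X] [TopologicalSpace X] [TopologicalSpace (Arr X)]

theorem row_fibre {h : Arr X → ℝ} (hb : BisSupp h) {x : X} {g k k' : Fibre x}
    (h1 : h (quot g k) ≠ 0) (h2 : h (quot g k') ≠ 0) : k = k' := by
  obtain ⟨U, -, hU, -, ht⟩ := hb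
  exact quot_inj_right (ht (hU (subset_tsupport _ h1)) (hU (subset_tsupport _ h2)) rfl)

theorem col_fibre {h : Arr X → ℝ} (hb : BisSupp h) {x : X} {g g' k : Fibre x}
    (h1 : h (quot g k) ≠ 0) (h2 : h (quot g' k) ≠ 0) : g = g' := by
  obtain ⟨U, -, hU, hs, -⟩ := hb
  exact quot_inj_left (hs (hU (subset_tsupport _ h1)) (hU (subset_tsupport _ h2)) rfl)

theorem regR_row {h : Arr X → ℝ} (hb : BisSupp h) {s t t' : Arr X}
    (h1 : regR h s t ≠ 0) (h2 : regR h s t' ≠ 0) : t = t' := by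
  have e1 := src_eq_of_regR_ne h1
  have e2 := src_eq_of_regR_ne h2
  obtain ⟨x, y, s⟩ := s
  obtain ⟨x1, z, t⟩ := t
  obtain ⟨x2, z', t'⟩ := t'
  obtain rfl : x1 = x := e1
  obtain rfl : x2 = x1 := e2
  have h3 : h (quot (⟨y, s⟩ : Fibre x2) ⟨z, t⟩) ≠ 0 := fun hh =>
    h1 ((regR_arr h (⟨y, s⟩ : Fibre x2) ⟨z, t⟩).trans hh)
  have h4 : h (quot (⟨y, s⟩ : Fibre x2) ⟨z', t'⟩) ≠ 0 := fun hh =>
    h2 ((regR_arr h (⟨y, s⟩ : Fibre x2) ⟨z', t'⟩).trans hh)
  have := congrArg arr (row_fibre hb h3 h4)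
  exact this

theorem regR_col {h : Arr X → ℝ} (hb : BisSupp h) {s s' t : Arr X}
    (h1 : regR h s t ≠ 0) (h2 : regR h s' t ≠ 0) : s = s' := by
  have e1 := src_eq_of_regR_ne h1
  have e2 := src_eq_of_regR_ne h2
  obtain ⟨x, y, s⟩ := s
  obtain ⟨x1, y', s'⟩ := s'
  obtain ⟨x2, z, t⟩ := t
  obtain rfl : x2 = x := e1
  obtain rfl : x2 = x1 := e2
  have h3 : h (quot (⟨y, s⟩ : Fibre x2) ⟨z, t⟩) ≠ 0 := fun hh =>
    h1 ((regR_arr h (⟨y, s⟩ : Fibre x2) ⟨z, t⟩).trans hh)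
  have h4 : h (quot (⟨y', s'⟩ : Fibre x2) ⟨z, t⟩) ≠ 0 := fun hh =>
    h2 ((regR_arr h (⟨y', s'⟩ : Fibre x2) ⟨z, t⟩).trans hh)
  have := congrArg arr (col_fibre hb h3 h4)
  exact this

theorem regR_nonneg {h : Arr X → ℝ} (hb : IsBump h) (s t : Arr X) : 0 ≤ regR h s t := by
  unfold regR
  split_ifs
  · exact hb.nonneg _
  · exact le_rfl

theorem regR_le_one {h : Arr X → ℝ} (hb : IsBump h) (s t : Arr X) : regR h s t ≤ 1 := by
  unfold regR
  split_ifs
  · exact hb.le_one _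
  · exact zero_le_one

omit [TopologicalSpace X] in
theorem isCc_ofReal {h : Arr X → ℝ} (hc : Continuous h) (hs : HasCompactSupport h) :
    IsCc (fun a => (h a : ℂ)) :=
  ⟨Complex.continuous_ofReal.comp hc, hs.comp_left Complex.ofReal_zero⟩

theorem isCc_inv [EtaleGroupoid X] {h : Arr X → ℝ} (hc : Continuous h)
    (hs : HasCompactSupport h) : IsCc (fun a => (h (invArr a) : ℂ)) := by
  have hi : Continuous (invArr : Arr X → Arr X) := EtaleGroupoid.inv_cont
  let e : Arr X ≃ₜ Arr X :=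
    { toFun := invArr
      invFun := invArr
      left_inv := invArr_invArr
      right_inv := invArr_invArr
      continuous_toFun := hi
      continuous_invFun := hi }
  exact isCc_ofReal (hc.comp hi) (hs.comp_homeomorph e)

/-- `ExPrime` for an arbitrary finite index set -/
theorem exPrime_fintype (hE : ExPrime X) {J : Type} [Fintype J] (f : J → Arr X → ℂ)
    (hf : ∀ i, IsCc (f i)) (ρ₁ ρ₂ C : ℝ) (h0 : 0 ≤ ρ₁) (h12 : ρ₁ < ρ₂) :
    ∃ W : Finset (Arr X), ∀ (H : Type u) [NormedAddCommGroup H] [InnerProductSpace ℂ H]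
      [CompleteSpace H] (b : J → (H →L[ℂ] H)), (∀ i, ‖b i‖ ≤ C) →
      matNorm (fun s t : W => ∑ i, regMat (f i) s t • b i) ≤ ρ₁ →
      ∀ V : Finset (Arr X), matNorm (fun s t : V => ∑ i, regMat (f i) s t • b i) ≤ ρ₂ := by
  let e := Fintype.equivFin J
  obtain ⟨W, hW⟩ := hE (Fintype.card J) (fun i => f (e.symm i)) (fun i => hf _) ρ₁ ρ₂ C h0 h12
  refine ⟨W, fun H _ _ _ b hb h1 V => ?_⟩
  have key : ∀ s t : Arr X, ∑ i : Fin (Fintype.card J), regMat (f (e.symm i)) s t • b (e.symm i) =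
      ∑ i, regMat (f i) s t • b i := fun s t =>
    e.symm.sum_comp (fun i => regMat (f i) s t • b i)
  have := hW H (fun i => b (e.symm i)) (fun i => hb _) (by simp_rw [key]; exact h1) V
  simp_rw [key] at this
  exact this

end Top

section Quad

open Matrix

/-- quadratic forms are bounded by the norm -/
theorem quad_le {m : Type*} [Fintype m] [DecidableEq m] (M : Matrix m m ℂ) (v : m → ℂ) :
    (∑ p, ∑ q, star (v p) * M p q * v q).re ≤
      ‖(Matrix.toEuclideanCLM (n := m) (𝕜 := ℂ) M :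
        EuclideanSpace ℂ m →L[ℂ] EuclideanSpace ℂ m)‖ * ∑ p, ‖v p‖ ^ 2 := by
  set T := (Matrix.toEuclideanCLM (n := m) (𝕜 := ℂ) M :
        EuclideanSpace ℂ m →L[ℂ] EuclideanSpace ℂ m)
  let w : EuclideanSpace ℂ m := WithLp.toLp 2 v
  have h1 : inner ℂ w (T w) = ∑ p, ∑ q, star (v p) * M p q * v q := by
    rw [PiLp.inner_apply]
    refine Finset.sum_congr rfl fun p _ => ?_
    have h2 : (T w) p = ∑ q, M p q * v q := by
      simp only [T, Matrix.toEuclideanCLM_toLp, w, Matrix.mulVec, dotProduct]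
    rw [RCLike.inner_apply, h2, mul_comm, Finset.mul_sum]
    refine Finset.sum_congr rfl fun q _ => ?_
    simp only [w, RCLike.star_def]
    ring
  have h3 : ‖w‖ ^ 2 = ∑ p, ‖v p‖ ^ 2 := by
    rw [EuclideanSpace.norm_sq_eq]
  rw [← h1, ← h3]
  calc (inner ℂ w (T w)).re ≤ ‖inner ℂ w (T w)‖ := Complex.re_le_norm _
    _ ≤ ‖w‖ * ‖T w‖ := norm_inner_le_norm _ _
    _ ≤ ‖w‖ * (‖T‖ * ‖w‖) := by gcongr; exact T.le_opNorm w
    _ = ‖T‖ * ‖w‖ ^ 2 := by ring

end Quad

section Main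

variable {X : Type u} [Groupoid.{u} X] [TopologicalSpace X] [TopologicalSpace (Arr X)]

/-- the edge relations -/
def EE {n : ℕ} (h : Fin n → Arr X → ℝ) {x : X} (F : Finset (Fibre x)) (k : Fin n) (y z : F) :
    Prop := y ≠ z ∧ h k (quot y.1 z.1) = 1

/-- the matrices of the bump functions -/
noncomputable def hW {n : ℕ} (h : Fin n → Arr X → ℝ) (W : Finset (Arr X)) (k : Fin n) (s t : W) :
    ℝ := regR (h k) s.1 t.1

theorem data {n : ℕ} (hn : 0 < n) (h : Fin n → Arr X → ℝ) (hb : ∀ k, IsBump (h k)) {x : X}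
    (F : Finset (Fibre x)) (W : Finset (Arr X)) (μ : Fibre x → ℝ) (hμ : ∀ g, 0 < μ g) :
    Key.Data (hW h W) (EE h F) (fun y => μ y.1) where
  npos := hn
  h0 k s t := regR_nonneg (hb k) _ _
  h1 k s t := regR_le_one (hb k) _ _
  hrow k s t t' h1 h2 := Subtype.ext (regR_row (hb k).bis h1 h2)
  hcol k s s' t h1 h2 := Subtype.ext (regR_col (hb k).bis h1 h2)
  Eirr k y h := h.1 rfl
  Erow k y z z' h1 h2 := Subtype.ext (row_fibre (hb k).bis
    (by rw [h1.2]; exact one_ne_zero) (by rw [h2.2]; exact one_ne_zero))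
  Ecol k y y' z h1 h2 := Subtype.ext (col_fibre (hb k).bis
    (by rw [h1.2]; exact one_ne_zero) (by rw [h2.2]; exact one_ne_zero))
  μpos y := hμ _

omit [TopologicalSpace X] [TopologicalSpace (Arr X)] in
theorem edgeAdj_iff {n : ℕ} (h : Fin n → Arr X → ℝ) {x : X} (F : Finset (Fibre x)) (y z : F) :
    EdgeAdj {a | ∃ k, h k a = 1} y.1 z.1 ↔ ∃ k, EE h F k y z ∨ EE h F k z y := by
  simp only [EdgeAdj, EE, Set.mem_ofPred_eq, ne_eq, Subtype.ext_iff]
  constructor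
  · rintro ⟨h1, ⟨k, hk⟩ | ⟨k, hk⟩⟩
    · exact ⟨k, Or.inl ⟨h1, hk⟩⟩
    · exact ⟨k, Or.inr ⟨fun h => h1 h.symm, hk⟩⟩
  · rintro ⟨k, ⟨h1, hk⟩ | ⟨h1, hk⟩⟩
    · exact ⟨h1, Or.inl ⟨k, hk⟩⟩
    · exact ⟨fun h => h1 h.symm, Or.inr ⟨k, hk⟩⟩

theorem mem_sdiff_aux {α : Type*} (inst : DecidableEq α) (s t : Finset α) (a : α) :
    a ∈ s \ t ↔ a ∈ s ∧ a ∉ t := Finset.mem_sdiff

omit [TopologicalSpace X] [TopologicalSpace (Arr X)] in
theorem expanding {n : ℕ} (h : Fin n → Arr X → ℝ) {x : X} (F : Finset (Fibre x)) (S : ℕ)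
    (μ : Fibre x → ℝ) (hμ : ∀ g, 0 < μ g) (ε ε₁ : ℝ) (h1 : ε₁ ≤ ε)
    (hcon : ∀ E ⊆ F, E.Nonempty → E.card ≤ S → ε * ∑ g ∈ E, μ g ≤
      open Classical in
      ∑ g ∈ E, ∑ g' ∈ (F \ E).filter (fun g' => EdgeAdj {a | ∃ k, h k a = 1} g g'),
          min (μ g) (μ g')) : Key.Expanding (EE h F) (fun y => μ y.1) ε₁ S := by
  classical
  intro P hP hPS
  have h2 := hcon (P.map (Function.Embedding.subtype _)) (by
    intro g hg
    rw [Finset.mem_map] at hg
    obtain ⟨y, -, rfl⟩ := hg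
    exact y.2) (by simpa using hP) (by simpa using hPS)
  rw [Finset.sum_map, Finset.sum_map] at h2
  have h3 : ε₁ * ∑ y ∈ P, μ y.1 ≤ ε * ∑ y ∈ P, μ y.1 :=
    mul_le_mul_of_nonneg_right h1 (Finset.sum_nonneg fun y _ => (hμ _).le)
  refine h3.trans (h2.trans (le_of_eq ?_))
  refine Finset.sum_congr rfl fun y _ => ?_
  symm
  refine Finset.sum_bij (fun z _ => z.1) ?_ ?_ ?_ ?_
  · intro z hz
    have hz1 := Finset.mem_filter.1 hz
    refine Finset.mem_filter.2 ⟨Finset.mem_sdiff.2 ⟨z.2, fun hz2 => ?_⟩,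
      (edgeAdj_iff h F y z).2 hz1.2⟩
    obtain ⟨w, hw, hwz⟩ := Finset.mem_map.1 hz2
    rw [Subtype.ext hwz] at hw
    exact ((mem_sdiff_aux _ _ _ _).1 hz1.1).2 hw
  · intro z _ z' _ hzz
    exact Subtype.ext hzz
  · intro z hz
    have hz1 := Finset.mem_filter.1 hz
    have hz2 := Finset.mem_sdiff.1 hz1.1
    refine ⟨⟨z, hz2.1⟩, Finset.mem_filter.2 ⟨(mem_sdiff_aux _ _ _ _).2
      ⟨Finset.mem_univ _, fun hP' =>
      hz2.2 (Finset.mem_map.2 ⟨_, hP', rfl⟩)⟩, (edgeAdj_iff h F y ⟨z, hz2.1⟩).1 hz1.2⟩, rfl⟩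
  · intro z _
    rfl

/-- the functions on the groupoid -/
noncomputable def ff {n : ℕ} (h : Fin n → Arr X → ℝ) (u : Arr X → ℝ) :
    Option (Fin n ⊕ Fin n) → Arr X → ℂ
  | none => fun a => (u a : ℂ)
  | some (Sum.inl k) => fun a => (h k a : ℂ)
  | some (Sum.inr k) => fun a => (h k (invArr a) : ℂ)

/-- the coefficients -/
noncomputable def BB {n : ℕ} {F : Type u} (c : Fin n → F → F → ℝ) (B₀ : Matrix F F ℂ) :
    Option (Fin n ⊕ Fin n) → Matrix F F ℂ
  | none => B₀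
  | some (Sum.inl k) => Matrix.of fun y z => (c k y z : ℂ) / (4 * n)
  | some (Sum.inr k) => Matrix.of fun y z => (c k z y : ℂ) / (4 * n)

omit [TopologicalSpace X] [TopologicalSpace (Arr X)] in
open Classical in
theorem sum_eq {n : ℕ} (h : Fin n → Arr X → ℝ) (u : Arr X → ℝ)
    (hu : ∀ g, u g ≠ 0 → ∃ x, g = unitArr x) {F : Type u} [Fintype F] [DecidableEq F]
    (c : Fin n → F → F → ℝ) (B₀ : Matrix F F ℂ) (s t : Arr X) :
    ∑ j, regMat (ff h u j) s t • (Matrix.toEuclideanCLM (n := F) (𝕜 := ℂ) (BB c B₀ j) :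
        EuclideanSpace ℂ F →L[ℂ] EuclideanSpace ℂ F) =
      Matrix.toEuclideanCLM (n := F) (𝕜 := ℂ) (Matrix.of fun y z =>
        ((∑ k, (regR (h k) s t * c k y z + regR (h k) t s * c k z y) : ℝ) : ℂ) / (4 * n) +
          (if s = t then (u (unitArr s.tgt) : ℂ) else 0) * B₀ y z) := by
  simp_rw [← map_smul]
  rw [← map_sum]
  congr 1
  ext y z
  rw [Matrix.sum_apply, Fintype.sum_option, Fintype.sum_sum_type]
  simp only [ff, BB, Matrix.smul_apply, Matrix.of_apply, smul_eq_mul]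
  rw [regMat_ofReal, regR_unit hu]
  have e1 : ∀ k, regMat (fun a => (h k a : ℂ)) s t = (regR (h k) s t : ℂ) := fun k =>
    regMat_ofReal _ _ _
  have e2 : ∀ k, regMat (fun a => (h k (invArr a) : ℂ)) s t = (regR (h k) t s : ℂ) := fun k => by
    rw [← regR_inv]
    exact regMat_ofReal (fun a => h k (invArr a)) _ _
  simp_rw [e1, e2]
  rw [add_comm, ← Finset.sum_add_distrib]
  congr 1
  · rw [Complex.ofReal_sum, Finset.sum_div]
    refine Finset.sum_congr rfl fun k _ => ?_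
    push_cast
    ring
  · split_ifs <;> simp

theorem norm_BB_le {n : ℕ} (hn : 0 < n) {F : Type u} [Fintype F] [DecidableEq F]
    (c : Fin n → F → F → ℝ) (B₀ : Matrix F F ℂ)
    (hc : ∀ k, ‖(Matrix.toEuclideanCLM (n := F) (𝕜 := ℂ) (Matrix.of fun y z => (c k y z : ℂ)) :
      EuclideanSpace ℂ F →L[ℂ] EuclideanSpace ℂ F)‖ ≤ 1)
    (hB : ‖(Matrix.toEuclideanCLM (n := F) (𝕜 := ℂ) B₀ :
      EuclideanSpace ℂ F →L[ℂ] EuclideanSpace ℂ F)‖ ≤ 4) (j : Option (Fin n ⊕ Fin n)) :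
    ‖(Matrix.toEuclideanCLM (n := F) (𝕜 := ℂ) (BB c B₀ j) :
      EuclideanSpace ℂ F →L[ℂ] EuclideanSpace ℂ F)‖ ≤ 4 := by
  have hn' : (1 : ℝ) ≤ n := by exact_mod_cast hn
  have h4 : ‖((4 * n : ℂ))⁻¹‖ ≤ 1 := by
    rw [norm_inv, norm_mul, Complex.norm_natCast]
    have : ‖(4 : ℂ)‖ = 4 := by simp
    rw [this]
    rw [inv_le_one₀ (by positivity)]
    linarith
  have key : ∀ M : Matrix F F ℂ, ‖(Matrix.toEuclideanCLM (n := F) (𝕜 := ℂ) M :
      EuclideanSpace ℂ F →L[ℂ] EuclideanSpace ℂ F)‖ ≤ 1 →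
      ‖(Matrix.toEuclideanCLM (n := F) (𝕜 := ℂ) ((4 * n : ℂ)⁻¹ • M) :
      EuclideanSpace ℂ F →L[ℂ] EuclideanSpace ℂ F)‖ ≤ 4 := by
    intro M hM
    rw [map_smul, norm_smul]
    calc _ ≤ 1 * 1 := mul_le_mul h4 hM (norm_nonneg _) zero_le_one
      _ ≤ 4 := by norm_num
  match j with
  | none => exact hB
  | some (Sum.inl k) =>
    have : BB c B₀ (some (Sum.inl k)) = (4 * n : ℂ)⁻¹ • Matrix.of fun y z => (c k y z : ℂ) := by
      ext y z
      simp only [BB, Matrix.of_apply, Matrix.smul_apply, smul_eq_mul]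
      rw [div_eq_inv_mul]
    rw [this]
    exact key _ (hc k)
  | some (Sum.inr k) =>
    have : BB c B₀ (some (Sum.inr k)) =
        (4 * n : ℂ)⁻¹ • star (Matrix.of fun y z => (c k y z : ℂ)) := by
      ext y z
      simp only [BB, Matrix.of_apply, Matrix.smul_apply, smul_eq_mul, Matrix.star_apply,
        RCLike.star_def, Complex.conj_ofReal]
      rw [div_eq_inv_mul]
    rw [this]
    refine key _ ?_
    rw [map_star]
    exact (norm_star (Matrix.toEuclideanCLM (n := F) (𝕜 := ℂ)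
      (Matrix.of fun y z => (c k y z : ℂ)) : EuclideanSpace ℂ F →L[ℂ] EuclideanSpace ℂ F)).trans_le
      (hc k)

theorem exists_t {n : ℕ} (hn : 0 < n) {ε : ℝ} (hε : 0 < ε) (hε1 : ε ≤ 1) (w : ℝ) :
    ∃ t : ℕ, 4 * w ^ 2 * (1 - ε ^ 2 / (32 * n ^ 2)) ^ t ≤ ε ^ 2 / (512 * n ^ 2) := by
  have hn' : (1 : ℝ) ≤ n := by exact_mod_cast hn
  have h1 : 0 < ε ^ 2 / (32 * n ^ 2) := by positivity
  have h2 : ε ^ 2 / (32 * n ^ 2) ≤ 1 := by
    rw [div_le_one (by positivity)]
    nlinarith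
  have h3 : Filter.Tendsto (fun t : ℕ => 4 * w ^ 2 * (1 - ε ^ 2 / (32 * n ^ 2)) ^ t)
      Filter.atTop (𝓝 (4 * w ^ 2 * 0)) :=
    (tendsto_pow_atTop_nhds_zero_of_lt_one (by linarith) (by linarith)).const_mul _
  rw [mul_zero] at h3
  have h4 : (0 : ℝ) < ε ^ 2 / (512 * n ^ 2) := by positivity
  exact (h3.eventually (ge_mem_nhds h4)).exists

omit [TopologicalSpace X] [TopologicalSpace (Arr X)] in
open Classical in
/-- the value of the quadratic form of `Y` on the fibre -/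
theorem quad_value {n : ℕ} (hn : 0 < n) (h : Fin n → Arr X → ℝ) (u : Arr X → ℝ) {x : X} (F : Finset (Fibre x)) (μ : Fibre x → ℝ) (hμ : ∀ g, 0 < μ g)
    (hu1 : ∀ g ∈ F, u (unitArr g.1) = 1) (B₀ : Matrix F F ℂ) :
    (∑ p : F × F, ∑ q : F × F,
      star (if p.1 = p.2 then ((√(μ p.1.1) : ℝ) : ℂ) else 0) *
      (((∑ k, (regR (h k) (arr p.1.1) (arr q.1.1) *
          Key.cM (EE h F) (fun y => μ y.1) k p.2 q.2 +
        regR (h k) (arr q.1.1) (arr p.1.1) *
          Key.cM (EE h F) (fun y => μ y.1) k q.2 p.2) : ℝ) : ℂ) / (4 * n) +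
          (if arr p.1.1 = arr q.1.1 then (u (unitArr (arr p.1.1).tgt) : ℂ) else 0) *
            B₀ p.2 q.2) *
      (if q.1 = q.2 then ((√(μ q.1.1) : ℝ) : ℂ) else 0)).re =
    ∑ y : F, μ y.1 * ((B₀ y y).re + Key.deg (EE h F) (fun y => μ y.1) y / (4 * n)) := by
  have hd : ∀ f : F × F → ℂ, (∀ p, p.1 ≠ p.2 → f p = 0) → ∑ p, f p = ∑ y : F, f (y, y) := by
    intro f hf
    rw [Fintype.sum_prod_type]
    refine Finset.sum_congr rfl fun y _ => ?_
    exact Finset.sum_eq_single y (fun z _ hz => hf _ (Ne.symm hz)) (by simp)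
  rw [hd]
  swap
  · intro p hp
    refine Finset.sum_eq_zero fun q _ => ?_
    rw [if_neg hp]
    simp
  have h1 : ∀ y : F, (∑ q : F × F,
      star (if (y, y).1 = (y, y).2 then ((√(μ (y, y).1.1) : ℝ) : ℂ) else 0) *
      (((∑ k, (regR (h k) (arr (y, y).1.1) (arr q.1.1) *
          Key.cM (EE h F) (fun y => μ y.1) k (y, y).2 q.2 +
        regR (h k) (arr q.1.1) (arr (y, y).1.1) *
          Key.cM (EE h F) (fun y => μ y.1) k q.2 (y, y).2) : ℝ) : ℂ) / (4 * n) +
          (if arr (y, y).1.1 = arr q.1.1 then (u (unitArr (arr (y, y).1.1).tgt) : ℂ) else 0) *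
            B₀ (y, y).2 q.2) *
      (if q.1 = q.2 then ((√(μ q.1.1) : ℝ) : ℂ) else 0)) =
      ((∑ k, ∑ z, (Key.wt (EE h F) (fun y => μ y.1) k y z +
        Key.wt (EE h F) (fun y => μ y.1) k z y) : ℝ) : ℂ) / (4 * n) +
        (μ y.1 : ℂ) * B₀ y y := by
    intro y
    rw [hd]
    swap
    · intro q hq
      rw [if_neg hq]
      simp
    have hsq : ∀ y : F, (√(μ y.1)) ≠ 0 := fun y => (Real.sqrt_pos.2 (hμ _)).ne'
    have e1 : ∀ (k : Fin n) (y z : F), regR (h k) (arr y.1) (arr z.1) *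
        Key.cM (EE h F) (fun y => μ y.1) k y z * (√(μ y.1) * √(μ z.1)) =
        Key.wt (EE h F) (fun y => μ y.1) k y z := by
      intro k y z
      rw [regR_arr]
      unfold Key.cM Key.wt
      split_ifs with hE
      · rw [hE.2]
        have := hsq y
        have := hsq z
        field_simp
      · simp
    have e2 : ∀ z : F, star (if (y, y).1 = (y, y).2 then ((√(μ (y, y).1.1) : ℝ) : ℂ) else 0) *
        (((∑ k, (regR (h k) (arr (y, y).1.1) (arr (z, z).1.1) *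
          Key.cM (EE h F) (fun y => μ y.1) k (y, y).2 (z, z).2 +
        regR (h k) (arr (z, z).1.1) (arr (y, y).1.1) *
          Key.cM (EE h F) (fun y => μ y.1) k (z, z).2 (y, y).2) : ℝ) : ℂ) / (4 * n) +
          (if arr (y, y).1.1 = arr (z, z).1.1 then (u (unitArr (arr (y, y).1.1).tgt) : ℂ)
            else 0) * B₀ (y, y).2 (z, z).2) *
      (if (z, z).1 = (z, z).2 then ((√(μ (z, z).1.1) : ℝ) : ℂ) else 0) =
      ((∑ k, (Key.wt (EE h F) (fun y => μ y.1) k y z +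
        Key.wt (EE h F) (fun y => μ y.1) k z y) : ℝ) : ℂ) / (4 * n) +
        (if y = z then (μ y.1 : ℂ) * B₀ y y else 0) := by
      intro z
      simp only [if_true]
      have e3 : (∑ k, (Key.wt (EE h F) (fun y => μ y.1) k y z +
        Key.wt (EE h F) (fun y => μ y.1) k z y) : ℝ) =
        (∑ k, (regR (h k) (arr y.1) (arr z.1) * Key.cM (EE h F) (fun y => μ y.1) k y z +
          regR (h k) (arr z.1) (arr y.1) * Key.cM (EE h F) (fun y => μ y.1) k z y)) *
          (√(μ y.1) * √(μ z.1)) := by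
        rw [Finset.sum_mul]
        refine Finset.sum_congr rfl fun k _ => ?_
        rw [← e1 k y z, ← e1 k z y]
        ring
      rw [e3]
      have e4 : star (((√(μ y.1) : ℝ) : ℂ)) = ((√(μ y.1) : ℝ) : ℂ) := Complex.conj_ofReal _
      rw [e4]
      by_cases hyz : y = z
      · subst hyz
        rw [if_pos rfl, if_pos rfl]
        have e5 : u (unitArr (arr y.1).tgt) = 1 := hu1 _ y.2
        have e6 : ((μ y.1 : ℝ) : ℂ) = ((√(μ y.1) : ℝ) : ℂ) * ((√(μ y.1) : ℝ) : ℂ) := by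
          rw [← Complex.ofReal_mul, Real.mul_self_sqrt (hμ _).le]
        rw [e5, e6]
        push_cast
        ring
      · rw [if_neg hyz, if_neg (fun hh => hyz (Subtype.ext (arr_injective hh)))]
        push_cast
        ring
    rw [Finset.sum_congr rfl fun z _ => e2 z, Finset.sum_add_distrib, Finset.sum_ite_eq,
      if_pos (Finset.mem_univ _)]
    congr 1
    rw [← Finset.sum_div, ← Complex.ofReal_sum, Finset.sum_comm]
  rw [Finset.sum_congr rfl fun y _ => h1 y, Complex.re_sum]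
  refine Finset.sum_congr rfl fun y _ => ?_
  have h2 : (((∑ k, ∑ z, (Key.wt (EE h F) (fun y => μ y.1) k y z +
        Key.wt (EE h F) (fun y => μ y.1) k z y) : ℝ) : ℂ) / (4 * n)) =
        (((∑ k, ∑ z, (Key.wt (EE h F) (fun y => μ y.1) k y z +
        Key.wt (EE h F) (fun y => μ y.1) k z y)) / (4 * n) : ℝ) : ℂ) := by
    push_cast
    rfl
  rw [h2, Complex.add_re, Complex.ofReal_re, Complex.re_ofReal_mul]
  unfold Key.deg
  have := (hμ y.1).ne'
  field_simp
  ring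

open Classical in
/-- the key step: a contradiction from a graph without good sets -/
theorem false_of_expanding {n : ℕ} (hn : 0 < n) (h : Fin n → Arr X → ℝ) (hb : ∀ k, IsBump (h k))
    (u : Arr X → ℝ) (hub : IsBump u) (hu : ∀ g, u g ≠ 0 → ∃ x, g = unitArr x) {ε : ℝ} (hε : 0 < ε)
    (hε1 : ε ≤ 1) (W : Finset (Arr X)) (t : ℕ)
    (hW : ∀ (H : Type u) [NormedAddCommGroup H] [InnerProductSpace ℂ H]
      [CompleteSpace H] (b : Option (Fin n ⊕ Fin n) → (H →L[ℂ] H)), (∀ i, ‖b i‖ ≤ 4) →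
      matNorm (fun s t : W => ∑ i, regMat (ff h u i) s t • b i) ≤ 3 →
      ∀ V : Finset (Arr X), matNorm (fun s t : V => ∑ i, regMat (ff h u i) s t • b i) ≤
        3 + ε ^ 2 / (2048 * n ^ 2))
    (ht : 4 * (Fintype.card W : ℝ) ^ 2 * (1 - ε ^ 2 / (32 * n ^ 2)) ^ t ≤ ε ^ 2 / (512 * n ^ 2))
    {x : X} (F : Finset (Fibre x)) (hF : F.Nonempty) (μ : Fibre x → ℝ) (hμ : ∀ g, 0 < μ g)
    (hu1 : ∀ g ∈ F, u (unitArr g.1) = 1)
    (hE : Key.Expanding (EE h F) (fun y => μ y.1) ε ((2 * n + 1) ^ t)) : False := by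
  have : Nonempty F := hF.to_subtype
  have hd := data hn h hb F W μ hμ
  obtain ⟨B₀, hB4, hY3, hlow⟩ := Key.key hd hε hε1 t hE (fun s => u (unitArr s.1.tgt))
    (fun s => hub.nonneg _) (fun s => hub.le_one _) ht
  set c := Key.cM (EE h F) (fun y => μ y.1) with hcdef
  have hc : ∀ k, ‖(Matrix.toEuclideanCLM (n := F) (𝕜 := ℂ) (Matrix.of fun y z => (c k y z : ℂ)) :
      EuclideanSpace ℂ F →L[ℂ] EuclideanSpace ℂ F)‖ ≤ 1 := fun k => Key.norm_cM_le hd k
  have h1 := hW (EuclideanSpace ℂ F)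
    (fun j => Matrix.toEuclideanCLM (n := F) (𝕜 := ℂ) (BB c B₀ j)) (norm_BB_le hn c B₀ hc hB4)
  have h2 : matNorm (fun s t : W => ∑ i, regMat (ff h u i) s t •
      (Matrix.toEuclideanCLM (n := F) (𝕜 := ℂ) (BB c B₀ i) :
        EuclideanSpace ℂ F →L[ℂ] EuclideanSpace ℂ F)) ≤ 3 := by
    simp_rw [sum_eq h u hu c B₀]
    rw [matNorm_toEuclideanCLM]
    refine le_trans (le_of_eq ?_) hY3
    congr 3
    ext p q
    simp only [Matrix.of_apply, Key.yM, Key.xM, Subtype.ext_iff]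
    rfl
  have h3 := h1 h2 (F.map ⟨arr, arr_injective⟩)
  let f : F → (F.map ⟨arr, arr_injective⟩ : Finset (Arr X)) := fun y =>
    ⟨arr y.1, Finset.mem_map.2 ⟨y.1, y.2, rfl⟩⟩
  have hf : Function.Injective f := by
    intro y z hyz
    exact Subtype.ext (arr_injective (congrArg Subtype.val hyz))
  have h4 := (matNorm_submatrix_le f hf _).trans h3
  simp_rw [sum_eq h u hu c B₀] at h4
  rw [matNorm_toEuclideanCLM] at h4
  have h5 := quad_le (m := F × F) (Matrix.of fun p q : F × F =>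
    (Matrix.of fun y z => ((∑ k, (regR (h k) (f p.1).1 (f q.1).1 * c k y z +
      regR (h k) (f q.1).1 (f p.1).1 * c k z y) : ℝ) : ℂ) / (4 * n) +
      (if (f p.1).1 = (f q.1).1 then (u (unitArr (f p.1).1.tgt) : ℂ) else 0) * B₀ y z) p.2 q.2)
    (fun p => if p.1 = p.2 then ((√(μ p.1.1) : ℝ) : ℂ) else 0)
  have h6 := quad_value hn h u F μ hμ hu1 B₀
  simp only [Matrix.of_apply, f, hcdef] at h5
  rw [h6] at h5
  have h7 : ∑ p : F × F, ‖(if p.1 = p.2 then ((√(μ p.1.1) : ℝ) : ℂ) else 0)‖ ^ 2 =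
      ∑ y : F, μ y.1 := by
    rw [Fintype.sum_prod_type]
    refine Finset.sum_congr rfl fun y _ => ?_
    rw [Finset.sum_eq_single y]
    · rw [if_pos rfl, Complex.norm_real, Real.norm_eq_abs, sq_abs, Real.sq_sqrt (hμ _).le]
    · intro z _ hz
      rw [if_neg (Ne.symm hz)]
      simp
    · simp
  rw [h7] at h5
  have hpos : 0 < ∑ y : F, μ y.1 := Finset.sum_pos (fun y _ => hμ _) Finset.univ_nonempty
  rw [le_div_iff₀ hpos] at hlow
  simp only [Matrix.of_apply, f, hcdef] at h4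
  have h8 := mul_le_mul_of_nonneg_right h4 hpos.le
  have h9 := hlow.trans (h5.trans h8)
  have h10 := le_of_mul_le_mul_right h9 hpos
  have hn' : (0 : ℝ) < n := by exact_mod_cast hn
  have h11 : ε ^ 2 / (2048 * n ^ 2) < ε ^ 2 / (1024 * (n : ℝ) ^ 2) := by
    apply div_lt_div_of_pos_left (by positivity) (by positivity)
    nlinarith [sq_pos_of_pos hn']
  linarith

theorem isCc_ff [EtaleGroupoid X] {n : ℕ} (h : Fin n → Arr X → ℝ) (hb : ∀ k, IsBump (h k))
    (u : Arr X → ℝ) (hub : IsBump u) (j : Option (Fin n ⊕ Fin n)) : IsCc (ff h u j) := by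
  match j with
  | none => exact isCc_ofReal hub.cont hub.cpt
  | some (Sum.inl k) => exact isCc_ofReal (hb k).cont (hb k).cpt
  | some (Sum.inr k) => exact isCc_inv (hb k).cont (hb k).cpt

end Main

end UL

variable {X : Type u} [Groupoid.{u} X] [TopologicalSpace X] [TopologicalSpace (Arr X)]

theorem ula_of_exPrime [EtaleGroupoid X] (h : ExPrime X) : ULA X := by
  classical
  intro n hh hb ε hε
  rcases Nat.eq_zero_or_pos n with rfl | hn
  · refine ⟨1, fun x F hF μ hμ => ?_⟩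
    obtain ⟨y, hy⟩ := hF
    refine ⟨{y}, by simpa using hy, by simp, by simp, ?_⟩
    rw [Finset.sum_singleton, Finset.sum_singleton]
    refine lt_of_eq_of_lt (Finset.sum_eq_zero ?_) (mul_pos hε (hμ y))
    intro z hz
    obtain ⟨-, ⟨k, hk⟩ | ⟨k, hk⟩⟩ := (Finset.mem_filter.1 hz).2
    · exact k.elim0
    · exact k.elim0
  · set ε₁ := min ε 1 with hε₁
    have h0 : 0 < ε₁ := lt_min hε one_pos
    have h1 : ε₁ ≤ 1 := min_le_right _ _
    have hsrc : Continuous (Arr.src : Arr X → X) := EtaleGroupoid.src_homeo.continuous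
    have htgt : Continuous (Arr.tgt : Arr X → X) := EtaleGroupoid.tgt_homeo.continuous
    have hQ : IsCompact (⋃ k, (Arr.tgt '' tsupport (hh k) ∪ Arr.src '' tsupport (hh k))) :=
      isCompact_iUnion fun k => ((hb k).cpt.isCompact.image htgt).union
        ((hb k).cpt.isCompact.image hsrc)
    obtain ⟨u, hub, hu1, hu⟩ := exists_unit_bump _ hQ
    have hn' : (0 : ℝ) < n := by exact_mod_cast hn
    obtain ⟨W, hW⟩ := UL.exPrime_fintype h (UL.ff hh u) (UL.isCc_ff hh hb u hub) 3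
      (3 + ε₁ ^ 2 / (2048 * n ^ 2)) 4 (by norm_num) (by
        have : 0 < ε₁ ^ 2 / (2048 * (n : ℝ) ^ 2) := by positivity
        linarith)
    obtain ⟨t, ht⟩ := UL.exists_t hn h0 h1 (Fintype.card W)
    refine ⟨(2 * n + 1) ^ t, fun x F hF μ hμ => ?_⟩
    by_contra hcon
    push Not at hcon
    have hcon' : ∀ E ⊆ F, E.Nonempty → E.card ≤ (2 * n + 1) ^ t → ε * ∑ g ∈ E, μ g ≤
      ∑ g ∈ E, ∑ g' ∈ (F \ E).filter (fun g' => EdgeAdj {a | ∃ k, hh k a = 1} g g'),
          min (μ g) (μ g') := hcon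
    refine UL.false_of_expanding hn hh hb u hub hu h0 h1 W t hW ht F hF μ hμ ?_
      (UL.expanding hh F _ μ hμ ε ε₁ (min_le_left _ _) hcon')
    intro g hg
    have h2 := hcon' {g} (by simpa using hg) (by simp) (by
      rw [Finset.card_singleton]
      exact Nat.one_le_pow _ _ (by omega))
    rw [Finset.sum_singleton, Finset.sum_singleton] at h2
    have h3 : 0 < ε * μ g := mul_pos hε (hμ g)
    have h4 : ((F \ {g}).filter (fun g' => EdgeAdj {a | ∃ k, hh k a = 1} g g')).Nonempty := by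
      by_contra hne
      rw [Finset.not_nonempty_iff_eq_empty] at hne
      rw [hne, Finset.sum_empty] at h2
      linarith
    obtain ⟨g', hg'⟩ := h4
    obtain ⟨-, ⟨k, hk⟩ | ⟨k, hk⟩⟩ := (Finset.mem_filter.1 hg').2
    · refine hu1 g.1 (Set.mem_iUnion.2 ⟨k, Or.inl ⟨quot g g', subset_tsupport _ ?_, rfl⟩⟩)
      rw [Function.mem_support, hk]
      exact one_ne_zero
    · refine hu1 g.1 (Set.mem_iUnion.2 ⟨k, Or.inr ⟨quot g' g, subset_tsupport _ ?_, rfl⟩⟩)
      rw [Function.mem_support, hk]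
      exact one_ne_zero

end Pool.Agent.KW
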